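import Pool.Agent.H88.WPD.AxisDef

/-!
From blocks to the periodic axis.
-/

namespace Pool.Agent.H88.WPD

section arith

variable {G : Type*} [Group G]

theorem UU_add (x : ℕ → G) {J : ℕ} (hJ : 0 < J) (i : ℤ) :
    UU x J (i + J) = pre x J * UU x J i := by
  have hJ' : (J : ℤ) ≠ 0 := by exact_mod_cast hJ.ne'
  unfold UU
  rw [Int.add_ediv_of_dvd_right (dvd_refl _), Int.ediv_self hJ', Int.add_emod_right,
    zpow_add, zpow_one, ← mul_assoc]
  congr 1
  rw [← zpow_one_add, ← zpow_add_one, add_comm]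

theorem ix_add (J : ℕ) (i : ℤ) : ix J (i + J) = ix J i := by
  unfold ix
  rw [Int.add_emod_right]

theorem ix_lt {J : ℕ} (hJ : 0 < J) (i : ℤ) : ix J i < J := by
  have h1 : i % (J : ℤ) < J := Int.emod_lt_of_pos i (by exact_mod_cast hJ)
  have h2 : 0 ≤ i % (J : ℤ) := Int.emod_nonneg i (by exact_mod_cast hJ.ne')
  unfold ix
  omega

theorem ix_cast {J : ℕ} (hJ : 0 < J) (i : ℤ) : ((ix J i : ℕ) : ℤ) = i % (J : ℤ) :=
  Int.toNat_of_nonneg (Int.emod_nonneg i (by exact_mod_cast hJ.ne'))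

theorem ix_succ_lt {J : ℕ} (hJ : 0 < J) (i : ℤ) (h : ix J i + 1 < J) :
    ix J (i + 1) = ix J i + 1 ∧ (i + 1) / (J : ℤ) = i / (J : ℤ) := by
  have h0 : (0 : ℤ) < J := by exact_mod_cast hJ
  have h1 := ix_cast hJ i
  have h2 := ix_cast hJ (i + 1)
  have e0 := Int.emod_add_mul_ediv i (J : ℤ)
  have e1 : i + 1 = (i % (J : ℤ) + 1) + (J : ℤ) * (i / (J : ℤ)) := by linarith
  have e2 : (i + 1) % (J : ℤ) = i % (J : ℤ) + 1 := by
    rw [e1, Int.add_mul_emod_self_left]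
    exact Int.emod_eq_of_lt (by omega) (by omega)
  have e3 : (i + 1) / (J : ℤ) = i / (J : ℤ) := by
    rw [e1, Int.add_mul_ediv_left _ _ h0.ne']
    rw [Int.ediv_eq_zero_of_lt (by omega) (by omega), zero_add]
  exact ⟨by omega, e3⟩

theorem ix_succ_eq {J : ℕ} (hJ : 0 < J) (i : ℤ) (h : ix J i + 1 = J) :
    ix J (i + 1) = 0 ∧ (i + 1) / (J : ℤ) = i / (J : ℤ) + 1 := by
  have h0 : (0 : ℤ) < J := by exact_mod_cast hJ
  have h1 := ix_cast hJ i
  have h2 := ix_cast hJ (i + 1)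
  have e0 := Int.emod_add_mul_ediv i (J : ℤ)
  have e1 : i + 1 = 0 + (J : ℤ) * (i / (J : ℤ) + 1) := by
    have : i % (J : ℤ) = J - 1 := by omega
    rw [this] at e0
    linarith
  have e2 : (i + 1) % (J : ℤ) = 0 := by
    rw [e1, Int.add_mul_emod_self_left, Int.zero_emod]
  have e3 : (i + 1) / (J : ℤ) = i / (J : ℤ) + 1 := by
    rw [e1, Int.add_mul_ediv_left _ _ h0.ne', Int.zero_ediv, zero_add]
  exact ⟨by omega, e3⟩

theorem UU_succ (x : ℕ → G) {J : ℕ} (hJ : 0 < J) (i : ℤ) :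
    UU x J (i + 1) = UU x J i * x (ix J i) := by
  have h0 := ix_lt hJ i
  rcases Nat.lt_or_ge (ix J i + 1) J with h | h
  · obtain ⟨h1, h2⟩ := ix_succ_lt hJ i h
    unfold UU
    rw [h2]
    change _ * pre x (ix J (i + 1)) = _ * pre x (ix J i) * _
    rw [h1, mul_assoc]
    rfl
  · have h' : ix J i + 1 = J := by omega
    obtain ⟨h1, h2⟩ := ix_succ_eq hJ i h'
    unfold UU
    rw [h2]
    change _ * pre x (ix J (i + 1)) = _ * pre x (ix J i) * _
    rw [h1, mul_assoc]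
    change _ * 1 = _ * pre x (ix J i + 1)
    rw [h', zpow_add, zpow_one, mul_one]

end arith

section chain

variable {X : Type*} [PseudoMetricSpace X] {δ : ℝ}

/-- A chain with variable constants. -/
structure VChain (V : ℤ → X) (g : ℤ → ℝ) (δ : ℝ) : Prop where
  jn : ∀ i, gp (V (i - 1)) (V (i + 1)) (V i) ≤ g i
  ed : ∀ i, g i + g (i + 1) + 4 * δ < dist (V i) (V (i + 1))

theorem VChain.rev {V : ℤ → X} {g : ℤ → ℝ} (h : VChain V g δ) :
    VChain (fun i => V (-i)) (fun i => g (-i)) δ := by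
  constructor
  · intro i
    have := h.jn (-i)
    have e1 : -(i - 1) = -i + 1 := by ring
    have e2 : -(i + 1) = -i - 1 := by ring
    simp only [e1, e2]
    rw [gp_comm]
    exact this
  · intro i
    have := h.ed (-(i + 1))
    have e1 : -(i + 1) + 1 = -i := by ring
    rw [e1] at this
    rw [dist_comm (V (-i))]
    linarith

theorem VChain.fwd (hX : Hyp X δ) {V : ℤ → X} {g : ℤ → ℝ} (h : VChain V g δ) (hδ : 0 ≤ δ) :
    ∀ n : ℕ, ∀ j : ℤ, gp (V (j - 1)) (V (j + 1 + n)) (V j) ≤ g j + δ := by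
  intro n
  induction n with
  | zero =>
    intro j
    have := h.jn j
    simp only [Nat.cast_zero, add_zero]
    linarith
  | succ n ih =>
    intro j
    have h1 := ih (j + 1)
    have e0 : j + 1 + 1 + (n : ℤ) = j + 1 + ((n + 1 : ℕ) : ℤ) := by push_cast; ring
    have e1 : j + 1 - 1 = j := by ring
    rw [e0, e1] at h1
    apply hX.le (h.jn j)
    have h2 : gp (V (j + 1 + ((n + 1 : ℕ) : ℤ))) (V (j + 1)) (V j) +
        gp (V (j + 1 + ((n + 1 : ℕ) : ℤ))) (V j) (V (j + 1)) = dist (V (j + 1)) (V j) :=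
      gp_add _ _ _
    have h3 := h.ed j
    have h4 : dist (V (j + 1)) (V j) = dist (V j) (V (j + 1)) := dist_comm _ _
    have h5 : gp (V (j + 1 + ((n + 1 : ℕ) : ℤ))) (V j) (V (j + 1)) =
        gp (V j) (V (j + 1 + ((n + 1 : ℕ) : ℤ))) (V (j + 1)) := gp_comm _ _ _
    linarith

theorem VChain.bwd (hX : Hyp X δ) {V : ℤ → X} {g : ℤ → ℝ} (h : VChain V g δ) (hδ : 0 ≤ δ)
    (n : ℕ) (j : ℤ) : gp (V (j - 1 - n)) (V (j + 1)) (V j) ≤ g j + δ := by
  have h1 := h.rev.fwd hX hδ n (-j)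
  have e1 : -(-j - 1) = j + 1 := by ring
  have e2 : -(-j + 1 + (n : ℤ)) = j - 1 - n := by ring
  have e3 : -(-j) = j := by ring
  simp only [e1, e2, e3] at h1
  rw [gp_comm]
  exact h1

theorem VChain.two (hX : Hyp X δ) {V : ℤ → X} {g : ℤ → ℝ} (h : VChain V g δ) (hδ : 0 ≤ δ)
    {i j k : ℤ} (hij : i ≤ j) (hjk : j ≤ k) :
    gp (V i) (V k) (V j) ≤ g j + 2 * δ := by
  have hg : ∀ j, 0 ≤ g j := fun j => le_trans (gp_nonneg _ _ _) (h.jn j)
  rcases eq_or_lt_of_le hij with rfl | hij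
  · rw [gp_self_base]
    have := hg i
    linarith
  rcases eq_or_lt_of_le hjk with rfl | hjk
  · rw [gp_self_base']
    have := hg j
    linarith
  obtain ⟨n, hn⟩ := Int.eq_ofNat_of_zero_le (a := j - 1 - i) (by omega)
  have h1 := h.bwd hX hδ n j
  have e1 : j - 1 - (n : ℤ) = i := by omega
  rw [e1] at h1
  rcases eq_or_lt_of_le (show j + 1 ≤ k by omega) with hk | hk
  · rw [← hk]
    linarith
  obtain ⟨m, hm⟩ := Int.eq_ofNat_of_zero_le (a := k - 2 - j) (by omega)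
  have h2 := h.fwd hX hδ m (j + 1)
  have e2 : j + 1 + 1 + (m : ℤ) = k := by omega
  have e3 : j + 1 - 1 = j := by ring
  rw [e2, e3] at h2
  have h3 := hX.le (y := V k) h1 (by
    have h4 : gp (V k) (V (j + 1)) (V j) + gp (V k) (V j) (V (j + 1)) =
      dist (V (j + 1)) (V j) := gp_add _ _ _
    have h5 := h.ed j
    have h6 : dist (V (j + 1)) (V j) = dist (V j) (V (j + 1)) := dist_comm _ _
    have h7 : gp (V k) (V j) (V (j + 1)) = gp (V j) (V k) (V (j + 1)) := gp_comm _ _ _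
    linarith)
  linarith

end chain

section glue

variable {X : Type*} [PseudoMetricSpace X] {G : Type*} [Group G] [MulAction G X]
  [IsIsometricSMul G X] {δ C e₀ ℓ₁ : ℝ} {o : X}

/-- The product at a junction of two blocks. -/
theorem junction (hX : Hyp X δ) (hδC : δ ≤ C) (hC : 0 < C) {a b t a' b' t' : G}
    (h1 : gp (b⁻¹ • o) (a • o) o ≤ 4 * C) (h2 : gp (a⁻¹ • o) (t • o) o ≤ 4 * C)
    (h3 : 100 * C ≤ dist o (a • o))
    (h1' : gp (b'⁻¹ • o) (a' • o) o ≤ 4 * C) (h2' : gp (a'⁻¹ • o) (t' • o) o ≤ 4 * C)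
    (h3' : 100 * C ≤ dist o (a' • o))
    (h4 : ℓ₁ ≤ dist o (b' • o)) (h5 : ℓ₁ ≤ dist o (t • o))
    (he : 100 * C ≤ e₀) (hℓ₁ : 100 * e₀ ≤ ℓ₁)
    (h9 : gp ((b * (a * t))⁻¹ • o) ((b' * (a' * t')) • o) o ≤ e₀) :
    gp (t⁻¹ • o) (b' • o) o ≤ e₀ + 2 * δ := by
  have hδ : 0 ≤ δ := hX.nonneg o
  -- the backward block
  have k1 : gp ((b * a)⁻¹ • o) (t • o) o ≤ 4 * C + δ := jn_mul_left hX h2 h1 (by linarith)
  have k2 : gp ((b * (a * t))⁻¹ • o) (t⁻¹ • o) o + gp ((b * (a * t))⁻¹ • o) o (t⁻¹ • o) =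
    dist (t⁻¹ • o) o := gp_add _ _ _
  have k3 : gp ((b * (a * t))⁻¹ • o) o (t⁻¹ • o) = gp ((b * a)⁻¹ • o) (t • o) o := by
    have e1 : (b * (a * t))⁻¹ • o = t⁻¹ • (b * a)⁻¹ • o := by
      rw [← mul_smul, ← mul_inv_rev, mul_assoc]
    rw [e1, ← gp_smul (X := X) t, smul_inv_smul, smul_inv_smul]
  have k4 : dist (t⁻¹ • o) o = dist o (t • o) := by rw [dist_comm, dist_inv_smul]
  have k5 : gp ((b' * (a' * t')) • o) (t⁻¹ • o) o ≤ e₀ + δ := by
    apply hX.le (z := (b * (a * t))⁻¹ • o) (by rw [gp_comm]; exact h9)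
    rw [gp_comm]
    linarith
  -- the forward block
  have l1 : gp (b'⁻¹ • o) ((a' * t') • o) o ≤ 4 * C + δ := jn_mul_right hX h1' h2' (by linarith)
  have l2 : gp ((b' * (a' * t')) • o) (b' • o) o + gp ((b' * (a' * t')) • o) o (b' • o) =
    dist (b' • o) o := gp_add _ _ _
  have l3 : gp ((b' * (a' * t')) • o) o (b' • o) = gp (b'⁻¹ • o) ((a' * t') • o) o := by
    rw [gp_comm, mul_smul, gp_inv_smul]
  have l4 : dist (b' • o) o = dist o (b' • o) := dist_comm _ _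
  have l5 : gp (t⁻¹ • o) (b' • o) o ≤ (e₀ + δ) + δ := by
    apply hX.le (z := (b' * (a' * t')) • o) (by rw [gp_comm]; exact k5)
    rw [gp_comm]
    linarith
  linarith

/-- Interleaving of three sequences. -/
def V3 {α : Type*} (Z Y Y' : ℤ → α) (n : ℤ) : α :=
  if n % 3 = 0 then Z (n / 3) else if n % 3 = 1 then Y (n / 3) else Y' (n / 3)

theorem V3_zero {α : Type*} (Z Y Y' : ℤ → α) (i : ℤ) : V3 Z Y Y' (3 * i) = Z i := by
  unfold V3
  have h1 : (3 * i) % 3 = 0 := by omega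
  have h2 : (3 * i) / 3 = i := by omega
  rw [if_pos h1, h2]

theorem V3_one {α : Type*} (Z Y Y' : ℤ → α) (i : ℤ) : V3 Z Y Y' (3 * i + 1) = Y i := by
  unfold V3
  have h1 : ¬ (3 * i + 1) % 3 = 0 := by omega
  have h1' : (3 * i + 1) % 3 = 1 := by omega
  have h2 : (3 * i + 1) / 3 = i := by omega
  rw [if_neg h1, if_pos h1', h2]

theorem V3_two {α : Type*} (Z Y Y' : ℤ → α) (i : ℤ) : V3 Z Y Y' (3 * i + 2) = Y' i := by
  unfold V3
  have h1 : ¬ (3 * i + 2) % 3 = 0 := by omega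
  have h1' : ¬ (3 * i + 2) % 3 = 1 := by omega
  have h2 : (3 * i + 2) / 3 = i := by omega
  rw [if_neg h1, if_neg h1', h2]

theorem three_chain {Z Y Y' : ℤ → X} {c e : ℝ}
    (hZ : ∀ i, gp (Y' i) (Y (i + 1)) (Z (i + 1)) ≤ e)
    (hY : ∀ i, gp (Z i) (Y' i) (Y i) ≤ c) (hY' : ∀ i, gp (Y i) (Z (i + 1)) (Y' i) ≤ c)
    (d1 : ∀ i, e + c + 4 * δ < dist (Z i) (Y i))
    (d2 : ∀ i, c + c + 4 * δ < dist (Y i) (Y' i))
    (d3 : ∀ i, c + e + 4 * δ < dist (Y' i) (Z (i + 1))) :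
    VChain (V3 Z Y Y') (V3 (fun _ => e) (fun _ => c) (fun _ => c)) δ := by
  constructor
  · intro n
    obtain ⟨i, hi⟩ : ∃ i : ℤ, n = 3 * (i + 1) ∨ n = 3 * i + 1 ∨ n = 3 * i + 2 :=
      if h : n % 3 = 0 then ⟨n / 3 - 1, by omega⟩ else ⟨n / 3, by omega⟩
    rcases hi with rfl | rfl | rfl
    · have e1 : 3 * (i + 1) - 1 = 3 * i + 2 := by ring
      rw [e1, V3_two, V3_one, V3_zero, V3_zero]
      exact hZ i
    · have e1 : 3 * i + 1 - 1 = 3 * i := by ring
      have e2 : 3 * i + 1 + 1 = 3 * i + 2 := by ring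
      rw [e1, e2, V3_two, V3_one, V3_one, V3_zero]
      exact hY i
    · have e1 : 3 * i + 2 - 1 = 3 * i + 1 := by ring
      have e2 : 3 * i + 2 + 1 = 3 * (i + 1) := by ring
      rw [e1, e2, V3_two, V3_two, V3_one, V3_zero]
      exact hY' i
  · intro n
    obtain ⟨i, hi⟩ : ∃ i : ℤ, n = 3 * i ∨ n = 3 * i + 1 ∨ n = 3 * i + 2 := ⟨n / 3, by omega⟩
    rcases hi with rfl | rfl | rfl
    · rw [V3_zero, V3_zero, V3_one, V3_one]
      exact d1 i
    · have e2 : 3 * i + 1 + 1 = 3 * i + 2 := by ring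
      rw [e2, V3_two, V3_two, V3_one, V3_one]
      exact d2 i
    · have e2 : 3 * i + 2 + 1 = 3 * (i + 1) := by ring
      rw [e2, V3_two, V3_two, V3_zero, V3_zero]
      exact d3 i

end glue

theorem axis_of_blocks {X : Type*} [PseudoMetricSpace X] {G : Type*} [Group G] [MulAction G X]
    [IsIsometricSMul G X] {δ C e₀ ℓ ℓ₁ ℓp : ℝ} (hX : Hyp X δ) (hδC : δ ≤ C) (hC : 0 < C)
    {o : X} {J : ℕ} (hJ : 1 < J) (x a b t : ℕ → G)
    (hx : ∀ k, k < J → x k = b k * (a k * t k))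
    (h1 : ∀ k, k < J → gp ((b k)⁻¹ • o) (a k • o) o ≤ 4 * C)
    (h2 : ∀ k, k < J → gp ((a k)⁻¹ • o) (t k • o) o ≤ 4 * C)
    (h3 : ∀ k, k < J → 100 * C ≤ dist o (a k • o))
    (h4 : ∀ k, k < J → ℓ₁ ≤ dist o (b k • o)) (h5 : ∀ k, k < J → ℓ₁ ≤ dist o (t k • o))
    (h6 : ∀ k, k < J → ℓ ≤ dist o (x k • o)) (h7 : ∀ k, k < J → dist o (b k • o) ≤ ℓp)
    (h8 : ∀ k, k < J → dist o ((a k * t k) • o) ≤ ℓp)
    (he : 100 * C ≤ e₀) (hℓ₁ : 100 * e₀ ≤ ℓ₁)
    (h9 : ∀ k, k + 1 < J → gp ((x k)⁻¹ • o) (x (k + 1) • o) o ≤ e₀)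
    (h10 : gp ((x (J - 1))⁻¹ • o) (x 0 • o) o ≤ e₀) :
    AxisData (pre x J) J (fun i => UU x J i • b (ix J i) • o)
      (fun i => UU x J i • b (ix J i) • a (ix J i) • o) (fun i => UU x J i • o)
      (10 * C) (2 * e₀) ℓ (ℓ₁ / 2) (2 * ℓp) := by
  have hδ : 0 ≤ δ := hX.nonneg o
  have hJ0 : 0 < J := by omega
  have hix : ∀ i : ℤ, ix J i < J := ix_lt hJ0
  -- the next vertex
  have hnext : ∀ i : ℤ, UU x J (i + 1) = UU x J i * (b (ix J i) * (a (ix J i) * t (ix J i))) := by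
    intro i
    rw [UU_succ x hJ0, hx _ (hix i)]
  have hjn : ∀ i : ℤ, gp ((b (ix J i) * (a (ix J i) * t (ix J i)))⁻¹ • o)
      ((b (ix J (i + 1)) * (a (ix J (i + 1)) * t (ix J (i + 1)))) • o) o ≤ e₀ := by
    intro i
    rw [← hx _ (hix i), ← hx _ (hix (i + 1))]
    rcases Nat.lt_or_ge (ix J i + 1) J with h | h
    · rw [(ix_succ_lt hJ0 i h).1]
      exact h9 _ h
    · have h' : ix J i + 1 = J := by have := hix i; omega
      rw [(ix_succ_eq hJ0 i h').1]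
      have e1 : ix J i = J - 1 := by omega
      rw [e1]
      exact h10
  have hjj : ∀ i : ℤ, gp ((t (ix J i))⁻¹ • o) (b (ix J (i + 1)) • o) o ≤ e₀ + 2 * δ := by
    intro i
    exact junction hX hδC hC (h1 _ (hix i)) (h2 _ (hix i)) (h3 _ (hix i)) (h1 _ (hix (i + 1)))
      (h2 _ (hix (i + 1))) (h3 _ (hix (i + 1))) (h4 _ (hix (i + 1))) (h5 _ (hix i)) he hℓ₁ (hjn i)
  set Z : ℤ → X := fun i => UU x J i • o with hZ
  set Y : ℤ → X := fun i => UU x J i • b (ix J i) • o with hY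
  set Y' : ℤ → X := fun i => UU x J i • b (ix J i) • a (ix J i) • o with hY'
  -- edges
  have dZY : ∀ i, dist (Z i) (Y i) = dist o (b (ix J i) • o) := by
    intro i
    simp only [hZ, hY]
    rw [dist_smul]
  have dYY' : ∀ i, dist (Y i) (Y' i) = dist o (a (ix J i) • o) := by
    intro i
    simp only [hY', hY]
    rw [dist_smul, dist_smul]
  have hZn : ∀ i, Z (i + 1) = UU x J i • b (ix J i) • a (ix J i) • t (ix J i) • o := by
    intro i
    simp only [hZ]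
    rw [hnext, mul_smul, mul_smul, mul_smul]
  have dY'Z : ∀ i, dist (Y' i) (Z (i + 1)) = dist o (t (ix J i) • o) := by
    intro i
    rw [hZn]
    simp only [hY']
    rw [dist_smul, dist_smul, dist_smul]
  have dYZ : ∀ i, dist (Y i) (Z (i + 1)) = dist o ((a (ix J i) * t (ix J i)) • o) := by
    intro i
    rw [hZn]
    simp only [hY]
    rw [dist_smul, dist_smul, mul_smul]
  -- junctions
  have jY : ∀ i, gp (Z i) (Y' i) (Y i) ≤ 4 * C := by
    intro i
    simp only [hZ, hY, hY']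
    rw [gp_smul, gp_inv_smul]
    exact h1 _ (hix i)
  have jY' : ∀ i, gp (Y i) (Z (i + 1)) (Y' i) ≤ 4 * C := by
    intro i
    rw [hZn]
    simp only [hY, hY']
    rw [gp_smul, gp_smul, gp_inv_smul]
    exact h2 _ (hix i)
  have jZ : ∀ i, gp (Y' i) (Y (i + 1)) (Z (i + 1)) ≤ e₀ + 2 * δ := by
    intro i
    have e1 : Y' i = UU x J (i + 1) • (t (ix J i))⁻¹ • o := by
      simp only [hY']
      rw [hnext, ← mul_smul, ← mul_smul, ← mul_smul]
      congr 1
      group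
    rw [e1]
    simp only [hY, hZ]
    rw [gp_smul]
    exact hjj i
  have hch := three_chain (δ := δ) (Z := Z) (Y := Y) (Y' := Y') jZ jY jY'
    (fun i => by rw [dZY]; linarith [h4 _ (hix i)])
    (fun i => by rw [dYY']; linarith [h3 _ (hix i)])
    (fun i => by rw [dY'Z]; linarith [h5 _ (hix i)])
  have hYY : ∀ i j k : ℤ, i ≤ j → j ≤ k → gp (Y i) (Y k) (Y j) ≤ 4 * C + 2 * δ := by
    intro i j k hij hjk
    have := hch.two hX hδ (i := 3 * i + 1) (j := 3 * j + 1) (k := 3 * k + 1) (by omega)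
      (by omega)
    rw [V3_one, V3_one, V3_one, V3_one] at this
    exact this
  have hYY' : ∀ i j k : ℤ, i ≤ j → j < k → gp (Y i) (Y k) (Y' j) ≤ 4 * C + 2 * δ := by
    intro i j k hij hjk
    have := hch.two hX hδ (i := 3 * i + 1) (j := 3 * j + 2) (k := 3 * k + 1) (by omega)
      (by omega)
    rw [V3_one, V3_one, V3_two, V3_two] at this
    exact this
  have hYZ : ∀ i j k : ℤ, i < j → j ≤ k → gp (Y i) (Y k) (Z j) ≤ e₀ + 2 * δ + 2 * δ := by
    intro i j k hij hjk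
    have := hch.two hX hδ (i := 3 * i + 1) (j := 3 * j) (k := 3 * k + 1) (by omega)
      (by omega)
    rw [V3_one, V3_one, V3_zero, V3_zero] at this
    exact this
  have hstep : ∀ i, dist (Y i) (Y (i + 1)) = dist o ((a (ix J i) * t (ix J i)) • o) +
      dist o (b (ix J (i + 1)) • o) - 2 * gp (Y i) (Y (i + 1)) (Z (i + 1)) := by
    intro i
    have e1 := dist_eq_gp (Y i) (Y (i + 1)) (Z (i + 1))
    have e2 := dYZ i
    have e3 := dZY (i + 1)
    rw [dist_comm (Z (i + 1))] at e3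
    linarith
  constructor
  · intro i
    simp only [hY]
    rw [UU_add x hJ0, ix_add, mul_smul]
  · intro i
    simp only [hY']
    rw [UU_add x hJ0, ix_add, mul_smul]
  · intro i
    simp only [hZ]
    rw [UU_add x hJ0, mul_smul]
  · intro i j k hij hjk
    have := hYY i j k hij hjk
    linarith
  · intro i j k hij hjk
    have := hYY' i j k hij hjk
    linarith
  · intro i j k hij hjk
    have := hYZ i j k hij hjk
    linarith
  · intro i
    have e1 := hstep i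
    have e2 := hYZ i (i + 1) (i + 1) (by omega) le_rfl
    have e3 := h4 _ (hix (i + 1))
    have e4 : 0 ≤ dist o ((a (ix J i) * t (ix J i)) • o) := dist_nonneg
    linarith
  · intro i
    have e1 := hstep i
    have e2 := gp_nonneg (Y i) (Y (i + 1)) (Z (i + 1))
    have e3 := h7 _ (hix (i + 1))
    have e4 := h8 _ (hix i)
    linarith
  · intro i
    have e1 : dist (Z i) (Z (i + 1)) = dist o (x (ix J i) • o) := by
      simp only [hZ]
      rw [UU_succ x hJ0, mul_smul, dist_smul]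
    rw [e1]
    exact h6 _ (hix i)
  · intro i
    rw [dZY]
    have := h4 _ (hix i)
    linarith
  · intro i
    rw [dY'Z]
    have := h5 _ (hix i)
    linarith

end Pool.Agent.H88.WPD
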