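import Pool.Agent.H88.WPD.Cyc
import Pool.Agent.H88.WPD.AxisDef
import Pool.Agent.H88.WPD.Walk

/-!
Counting matches and expectations over independent blocks.
-/

namespace Pool.Agent.H88.WPD

open scoped ENNReal

section count

variable {X : Type*} [PseudoMetricSpace X] {G : Type*} [Group G] [MulAction G X]
  [IsIsometricSMul G X] {δ : ℝ}

theorem near_close' (hX : Hyp X δ) {o z p p' : X} {c : ℝ}
    (h1 : gp z o p ≤ c) (h2 : gp z o p' ≤ c) (h3 : ⌊dist o p⌋₊ = ⌊dist o p'⌋₊) :
    dist p p' ≤ 2 * c + 2 * δ + 1 := by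
  have e1 := hX.four p p' o z
  have e2 := dist_eq_gp z o p
  have e3 := dist_eq_gp z o p'
  have f1 := Nat.floor_le (dist_nonneg (x := o) (y := p))
  have f2 := Nat.lt_floor_add_one (dist o p)
  have f3 := Nat.floor_le (dist_nonneg (x := o) (y := p'))
  have f4 := Nat.lt_floor_add_one (dist o p')
  rw [h3] at f1 f2
  have e5 : dist p o = dist o p := dist_comm _ _
  have e6 : dist p' o = dist o p' := dist_comm _ _
  have e7 : dist p z = dist z p := dist_comm _ _
  have e8 : dist p' z = dist z p' := dist_comm _ _
  have e9 : dist z o = dist o z := dist_comm _ _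
  have e10 : max (dist p o + dist p' z) (dist p z + dist p' o) ≤ dist o z + 2 * c + 1 := by
    apply max_le
    · linarith
    · linarith
  linarith

theorem near_le {o z p : X} {c M : ℝ} (h1 : gp z o p ≤ c) (hM : dist o z ≤ M) :
    dist o p ≤ M + 2 * c := by
  have e2 := dist_eq_gp z o p
  have e3 : 0 ≤ dist z p := dist_nonneg
  have e9 : dist z o = dist o z := dist_comm _ _
  linarith

/-- Elements moving a letter segment near a segment: polynomially many. -/
theorem match_count {X : Type*} [PseudoMetricSpace X] {G : Type*} [Group G] [MulAction G X]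
    [IsIsometricSMul G X] {δ : ℝ} (hX : Hyp X δ) {o z u v : X} {c M : ℝ} {E₀ : ℕ}
    (hc : 0 ≤ c) (hM : dist o z ≤ M)
    (hfin : (Stab G (2 * c + 2 * δ + 1) u v).Finite)
    (hcard : (Stab G (2 * c + 2 * δ + 1) u v).ncard ≤ E₀) :
    {h : G | gp z o (h • u) ≤ c ∧ gp z o (h • v) ≤ c}.Finite ∧
    {h : G | gp z o (h • u) ≤ c ∧ gp z o (h • v) ≤ c}.ncard ≤
      E₀ * (⌊M + 2 * c⌋₊ + 1) ^ 2 := by
  classical
  set A : Set G := {h : G | gp z o (h • u) ≤ c ∧ gp z o (h • v) ≤ c} with hA
  set f : G → ℕ × ℕ := fun h => (⌊dist o (h • u)⌋₊, ⌊dist o (h • v)⌋₊) with hf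
  set N := ⌊M + 2 * c⌋₊ + 1 with hN
  have hrange : ∀ h ∈ A, f h ∈ Finset.range N ×ˢ Finset.range N := by
    intro h hh
    rw [Finset.mem_product, Finset.mem_range, Finset.mem_range]
    exact ⟨Nat.lt_succ_of_le (Nat.floor_le_floor (near_le hh.1 hM)),
      Nat.lt_succ_of_le (Nat.floor_le_floor (near_le hh.2 hM))⟩
  have hfib : ∀ h0 ∈ A, {h | h ∈ A ∧ f h = f h0} ⊆
      (fun s => h0 * s) '' Stab G (2 * c + 2 * δ + 1) u v := by
    intro h0 h0A h hh
    obtain ⟨hhA, hhf⟩ := hh
    have g1 : ⌊dist o (h • u)⌋₊ = ⌊dist o (h0 • u)⌋₊ := congrArg Prod.fst hhf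
    have g2 : ⌊dist o (h • v)⌋₊ = ⌊dist o (h0 • v)⌋₊ := congrArg Prod.snd hhf
    refine ⟨h0⁻¹ * h, ⟨?_, ?_⟩, by simp⟩
    · have e1 : dist u ((h0⁻¹ * h) • u) = dist (h0 • u) (h • u) := by
        rw [← dist_smul h0 u, mul_smul, smul_inv_smul]
      rw [e1]
      exact near_close' hX h0A.1 hhA.1 g1.symm
    · have e1 : dist v ((h0⁻¹ * h) • v) = dist (h0 • v) (h • v) := by
        rw [← dist_smul h0 v, mul_smul, smul_inv_smul]
      rw [e1]
      exact near_close' hX h0A.2 hhA.2 g2.symm
  have hfibfin : ∀ h0 ∈ A, {h | h ∈ A ∧ f h = f h0}.Finite := fun h0 h0A =>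
    (hfin.image _).subset (hfib h0 h0A)
  have hAfin : A.Finite := by
    have h1 : A ⊆ ⋃ t ∈ (↑(Finset.range N ×ˢ Finset.range N) : Set (ℕ × ℕ)),
        {h | h ∈ A ∧ f h = t} := by
      intro h hh
      rw [Set.mem_iUnion₂]
      exact ⟨f h, hrange h hh, hh, rfl⟩
    refine Set.Finite.subset (Set.Finite.biUnion (Finset.finite_toSet _) ?_) h1
    intro t _
    by_cases ht : ∃ h0 ∈ A, f h0 = t
    · obtain ⟨h0, h0A, rfl⟩ := ht
      exact hfibfin h0 h0A
    · have : {h | h ∈ A ∧ f h = t} = ∅ := by
        rw [Set.eq_empty_iff_forall_notMem]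
        rintro h ⟨hh1, hh2⟩
        exact ht ⟨h, hh1, hh2⟩
      rw [this]
      exact Set.finite_empty
  refine ⟨hAfin, ?_⟩
  rw [Set.ncard_eq_toFinset_card A hAfin]
  have h1 : hAfin.toFinset.card ≤ E₀ * (hAfin.toFinset.image f).card := by
    apply Finset.card_le_mul_card_image
    intro t ht
    obtain ⟨h0, h0A, rfl⟩ := Finset.mem_image.1 ht
    rw [Set.Finite.mem_toFinset] at h0A
    have h2 : (↑(hAfin.toFinset.filter (fun h => f h = f h0)) : Set G) =
        {h | h ∈ A ∧ f h = f h0} := by
      ext h
      simp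
    rw [← Set.ncard_coe_finset, h2]
    refine le_trans (Set.ncard_le_ncard (hfib h0 h0A) (hfin.image _)) ?_
    exact (Set.ncard_image_le hfin).trans hcard
  refine h1.trans (Nat.mul_le_mul_left _ ?_)
  have h3 : hAfin.toFinset.image f ⊆ Finset.range N ×ˢ Finset.range N := by
    intro t ht
    obtain ⟨h0, h0A, rfl⟩ := Finset.mem_image.1 ht
    rw [Set.Finite.mem_toFinset] at h0A
    exact hrange h0 h0A
  refine (Finset.card_le_card h3).trans ?_
  rw [Finset.card_product, Finset.card_range, sq]

end count

/-- Expectation over independent blocks x 0, ..., x (J-1) (block k has law p k). -/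
noncomputable def EB {G : Type*} [Group G] (p : ℕ → PMF G) :
    ℕ → ((ℕ → G) → ENNReal) → ENNReal
  | 0, Φ => Φ (fun _ => 1)
  | J + 1, Φ => ∑' y, p J y * EB p J (fun x => Φ (Function.update x J y))

theorem EB_mono {G : Type*} [Group G] (p : ℕ → PMF G) (J : ℕ) {Φ Ψ : (ℕ → G) → ENNReal}
    (h : ∀ x, (∀ i, i < J → p i (x i) ≠ 0) → Φ x ≤ Ψ x) : EB p J Φ ≤ EB p J Ψ := by
  induction J generalizing Φ Ψ with
  | zero => exact h _ (fun i hi => absurd hi (Nat.not_lt_zero i))
  | succ J ih =>
    unfold EB
    apply ENNReal.tsum_le_tsum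
    intro y
    by_cases hy : p J y = 0
    · rw [hy, zero_mul, zero_mul]
    · apply mul_le_mul_right
      apply ih
      intro x hx
      apply h
      intro i hi
      rcases Nat.lt_or_ge i J with h1 | h1
      · rw [Function.update_of_ne (by omega)]
        exact hx i h1
      · have : i = J := by omega
        subst this
        rw [Function.update_self]
        exact hy

theorem EB_sum {G : Type*} [Group G] {ι : Type*} (p : ℕ → PMF G) (J : ℕ) (s : Finset ι)
    (Φ : ι → (ℕ → G) → ENNReal) :
    EB p J (fun x => ∑ i ∈ s, Φ i x) = ∑ i ∈ s, EB p J (Φ i) := by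
  induction J generalizing Φ with
  | zero => rfl
  | succ J ih =>
    simp only [EB]
    rw [← Summable.tsum_finsetSum (fun _ _ => ENNReal.summable)]
    refine tsum_congr fun y => ?_
    rw [ih, Finset.mul_sum]

theorem EB_tsum {G : Type*} [Group G] {ι : Type*} (p : ℕ → PMF G) (J : ℕ)
    (Φ : ι → (ℕ → G) → ENNReal) :
    EB p J (fun x => ∑' i, Φ i x) = ∑' i, EB p J (Φ i) := by
  induction J generalizing Φ with
  | zero => rfl
  | succ J ih =>
    simp only [EB]
    rw [ENNReal.tsum_comm]
    refine tsum_congr fun y => ?_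
    rw [ih, ENNReal.tsum_mul_left]

theorem EB_mul {G : Type*} [Group G] (p : ℕ → PMF G) (J : ℕ) (a : ENNReal)
    (Φ : (ℕ → G) → ENNReal) :
    EB p J (fun x => a * Φ x) = a * EB p J Φ := by
  induction J generalizing Φ with
  | zero => rfl
  | succ J ih =>
    simp only [EB]
    rw [← ENNReal.tsum_mul_left]
    refine tsum_congr fun y => ?_
    rw [ih]
    ring

theorem EB_const {G : Type*} [Group G] (p : ℕ → PMF G) (J : ℕ) (a : ENNReal) :
    EB p J (fun _ => a) = a := by
  induction J with
  | zero => rfl
  | succ J ih =>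
    simp only [EB]
    rw [ih, ENNReal.tsum_mul_right, (p J).tsum_coe, one_mul]

/-- Domination by the sum over one block. -/
theorem EB_le {G : Type*} [Group G] (p : ℕ → PMF G) {κ : ENNReal} {j : ℕ} (J : ℕ) (hj : j < J)
    (Φ : (ℕ → G) → ENNReal)
    (h : ∀ x : ℕ → G, (∀ i, i < J → i ≠ j → p i (x i) ≠ 0) →
      ∑' y, p j y * Φ (Function.update x j y) ≤ κ) : EB p J Φ ≤ κ := by
  induction J generalizing Φ with
  | zero => exact absurd hj (Nat.not_lt_zero j)
  | succ J ih =>
    rcases Nat.lt_or_ge j J with h1 | h1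
    · simp only [EB]
      calc ∑' y, p J y * EB p J (fun x => Φ (Function.update x J y))
          ≤ ∑' y, p J y * κ := by
            apply ENNReal.tsum_le_tsum
            intro y
            by_cases hy : p J y = 0
            · rw [hy, zero_mul, zero_mul]
            apply mul_le_mul_right
            apply ih h1
            intro x hx
            have h2 := h (Function.update x J y) (by
              intro i hi hij
              rcases Nat.lt_or_ge i J with h3 | h3
              · rw [Function.update_of_ne (by omega)]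
                exact hx i h3 hij
              · have : i = J := by omega
                subst this
                rw [Function.update_self]
                exact hy)
            refine le_trans (le_of_eq ?_) h2
            refine tsum_congr fun y' => ?_
            rw [Function.update_comm (by omega : j ≠ J)]
        _ = κ := by rw [ENNReal.tsum_mul_right, (p J).tsum_coe, one_mul]
    · have hjJ : j = J := by omega
      subst hjJ
      have e1 : EB p (j + 1) Φ = EB p j (fun x => ∑' y, p j y * Φ (Function.update x j y)) := by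
        rw [EB_tsum]
        simp only [EB]
        refine tsum_congr fun y => ?_
        rw [EB_mul]
      rw [e1, ← EB_const p j κ]
      apply EB_mono
      intro x hx
      exact h x (fun i hi hij => hx i (by omega))

theorem pre_congr {G : Type*} [Group G] {x x' : ℕ → G} {J : ℕ} (h : ∀ i, i < J → x i = x' i) :
    pre x J = pre x' J := by
  induction J with
  | zero => rfl
  | succ J ih =>
    unfold pre
    rw [ih (fun i hi => h i (by omega)), h J (by omega)]

/-- The product of independent blocks of the walk. -/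
theorem EB_walk {G : Type*} [Group G] (μ : PMF G) (n : ℕ → ℕ) (p : ℕ → PMF G) (J : ℕ)
    (hp : ∀ k, k < J → p k = walk μ (n k)) (f : G → ENNReal) :
    EB p J (fun x => f (pre x J)) =
      ∑' w, walk μ (∑ k ∈ Finset.range J, n k) w * f w := by
  induction J generalizing f with
  | zero =>
    simp only [EB, Finset.range_zero, Finset.sum_empty, walk, pre]
    rw [tsum_eq_single 1]
    · simp
    · intro b hb
      simp [hb]
  | succ J ih =>
    have h1 := Ex_walk_add μ (∑ k ∈ Finset.range J, n k) f (n J) 1
    unfold Ex at h1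
    simp only [one_mul] at h1
    rw [Finset.sum_range_succ, h1]
    simp only [EB]
    have h2 : ∀ y, EB p J (fun x => f (pre (Function.update x J y) (J + 1))) =
        ∑' w, walk μ (∑ k ∈ Finset.range J, n k) w * f (w * y) := by
      intro y
      rw [← ih (fun k hk => hp k (by omega)) (fun w => f (w * y))]
      congr 1
      funext x
      congr 1
      change pre (Function.update x J y) J * Function.update x J y J = pre x J * y
      rw [Function.update_self, pre_congr (x' := x)
        (fun i hi => Function.update_of_ne (by omega) _ _)]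
    simp only [h2]
    rw [hp J (by omega)]
    simp only [← ENNReal.tsum_mul_left]
    rw [ENNReal.tsum_comm]
    refine tsum_congr fun w => tsum_congr fun y => ?_
    ring

end Pool.Agent.H88.WPD
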