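import Pool.Agent.H40.WPD.Small
import Pool.Agent.H83.WPD.Windmill

/-!
Small overlap of the translates of an axis: the normal closure is free.
-/

namespace Pool.Agent.H88.WPD

/-- Small overlap of the translates of the axis of z implies that the normal closure of z
is free. -/
theorem free_of_small {X : Type*} [PseudoMetricSpace X] {G : Type*} [Group G] [MulAction G X]
    [IsIsometricSMul G X] {δ : ℝ} (hX : Hyp X δ)
    (hconn : ∀ p q : X, Relation.ReflTransGen (fun a b => dist a b ≤ 1) p q)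
    (o : X) (z : G) (κ θ L : ℝ) (hκ : 0 ≤ κ) (hθ : 0 ≤ θ)
    (hq : ∀ m n : ℕ, gp ((z ^ m)⁻¹ • o) (z ^ n • o) o ≤ κ)
    (hL : ∀ n : ℕ, 0 < n → L ≤ dist o (z ^ n • o)) (hbig : 1000 * (θ + κ + δ + 1) ≤ L)
    (hov : ∀ g : G, g * z * g⁻¹ ≠ z → ∀ n : ℕ,
      |dist (z ^ n • o) (g • (z ^ n)⁻¹ • o) + dist ((z ^ n)⁻¹ • o) (g • z ^ n • o)
        - dist (z ^ n • o) (g • z ^ n • o) - dist ((z ^ n)⁻¹ • o) (g • (z ^ n)⁻¹ • o)| ≤ 2 * θ)
    (hcen : ∀ g : G, g * z * g⁻¹ = z → ∃ j l : ℤ, 0 < j ∧ g ^ j = z ^ l) :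
    IsFreeGroup (Subgroup.normalClosure {z}) := by
  have hδ : 0 ≤ δ := hX.nonneg o
  have hbig2 : 2 * κ < L := by linarith
  have : Nonempty X := ⟨o⟩
  have hmem : ∀ t ∈ Group.conjugatesOfSet ({z} : Set G), ∃ h : G, t = h * z * h⁻¹ := by
    intro t ht
    rw [Group.mem_conjugatesOfSet_iff] at ht
    obtain ⟨a, ha, hc⟩ := ht
    rw [Set.mem_singleton_iff] at ha
    subst ha
    rw [isConj_iff] at hc
    obtain ⟨c, hc⟩ := hc
    exact ⟨c, hc.symm⟩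
  have hrot : ∀ m : ℕ, 0 < m → ∀ p : X, L - 2 * κ - 2 * δ ≤ DD z (z ^ m • p) p :=
    fun m hm p => DD_rot hX hκ hq hL hbig2 hm p
  have hrotZ : ∀ n : ℤ, n ≠ 0 → ∀ p : X, L - 2 * κ - 2 * δ ≤ DD z (z ^ n • p) p := by
    intro n hn p
    rcases Int.lt_or_gt_of_ne hn with h | h
    · obtain ⟨m, hm⟩ := Int.eq_ofNat_of_zero_le (a := -n) (by omega)
      have h1 := hrot m (by omega) (z ^ n • p)
      rw [← zpow_natCast, ← hm, ← mul_smul, ← zpow_add, neg_add_cancel, zpow_zero, one_smul,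
        DD_symm] at h1
      exact h1
    · obtain ⟨m, hm⟩ := Int.eq_ofNat_of_zero_le (a := n) (by omega)
      have h1 := hrot m (by omega) p
      rw [hm, zpow_natCast]
      exact h1
  show IsFreeGroup (Subgroup.closure (Group.conjugatesOfSet {z}))
  apply windmill (fun a b : X => dist a b ≤ 1) (fun g p q h => by rw [dist_smul]; exact h) hconn
    (Group.conjugatesOfSet {z})
    (fun t ht g => Group.conj_mem_conjugatesOfSet ht)
    (fun t p q => DD t p q) (fun t p => DD_self t p) (fun t p q => DD_symm t p q)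
    (fun t p q r => DD_tri t p q r) (fun t _ g p q => DD_conj g t p q)
    (2 * θ + κ + 9 * δ + 1) (L - 2 * κ - 2 * δ) (by positivity) (by linarith)
  · intro t _ p q h
    have := DD_dist t p q
    linarith
  · intro t ht n hn p
    obtain ⟨h, rfl⟩ := hmem t ht
    have h1 := hrotZ n hn (h⁻¹ • p)
    have h2 := DD_conj h z (z ^ n • h⁻¹ • p) (h⁻¹ • p)
    rw [smul_inv_smul] at h2
    have h3 : (h * z * h⁻¹) ^ n • p = h • z ^ n • h⁻¹ • p := by
      rw [conj_zpow, mul_smul, mul_smul]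
    show L - 2 * κ - 2 * δ ≤ DD (h * z * h⁻¹) ((h * z * h⁻¹) ^ n • p) p
    rw [h3, h2]
    exact h1
  · intro s hs t ht hne
    obtain ⟨a, rfl⟩ := hmem s hs
    obtain ⟨b, rfl⟩ := hmem t ht
    have hg : (a⁻¹ * b) * z * (a⁻¹ * b)⁻¹ ≠ z := by
      intro h
      apply hne
      calc a * z * a⁻¹ = a * ((a⁻¹ * b) * z * (a⁻¹ * b)⁻¹) * a⁻¹ := by rw [h]
        _ = b * z * b⁻¹ := by group
    refine ⟨a • (a⁻¹ * b) • o, a • o, fun p => ?_⟩
    have h1 := beh_z hX hκ hθ hq hL hbig2 (a⁻¹ * b) (hov _ hg) (a⁻¹ • p)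
    have e1 := DD_conj a z (a⁻¹ • p) ((a⁻¹ * b) • o)
    have e2 := DD_conj a ((a⁻¹ * b) * z * (a⁻¹ * b)⁻¹) (a⁻¹ • p) o
    rw [smul_inv_smul] at e1 e2
    have e3 : a * ((a⁻¹ * b) * z * (a⁻¹ * b)⁻¹) * a⁻¹ = b * z * b⁻¹ := by group
    rw [e3] at e2
    show DD (a * z * a⁻¹) p (a • (a⁻¹ * b) • o) ≤ _ ∨ DD (b * z * b⁻¹) p (a • o) ≤ _
    rw [e1, e2]
    rcases h1 with h1 | h1
    · left; linarith
    · right; linarith
  · intro t ht g hg
    obtain ⟨h, rfl⟩ := hmem t ht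
    have h1 : (h⁻¹ * g * h) * z * (h⁻¹ * g * h)⁻¹ = z := by
      have : h⁻¹ * (g * (h * z * h⁻¹) * g⁻¹) * h = h⁻¹ * (h * z * h⁻¹) * h := by rw [hg]
      calc (h⁻¹ * g * h) * z * (h⁻¹ * g * h)⁻¹ = h⁻¹ * (g * (h * z * h⁻¹) * g⁻¹) * h := by group
        _ = h⁻¹ * (h * z * h⁻¹) * h := this
        _ = z := by group
    obtain ⟨j, l, hj, hjl⟩ := hcen _ h1
    refine ⟨j, l, hj, ?_⟩
    have h2 : h⁻¹ * g * h = h⁻¹ * g * h⁻¹⁻¹ := by rw [inv_inv]
    rw [h2, conj_zpow, inv_inv] at hjl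
    rw [conj_zpow, ← hjl]
    group

end Pool.Agent.H88.WPD
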