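import Pool.Agent.H88.WPD.Cyc
import Pool.Agent.H88.WPD.Walk

/-!
Powers of WPD elements, connectedness of geodesic spaces, a union bound.
-/

namespace Pool.Agent.H88.WPD

theorem WPD.pow {X : Type*} [PseudoMetricSpace X] {G : Type*} [Group G] [MulAction G X]
    [IsIsometricSMul G X] {δ : ℝ} (hX : Hyp X δ) {w : G} (hw : WPD X w) {k : ℕ} (hk : 0 < k) :
    WPD X (w ^ k) := by
  refine ⟨?_, fun x K hK => ?_⟩
  · obtain ⟨x, c, hc, hx⟩ := hw.1
    have hk0 : (0:ℝ) < k := by exact_mod_cast hk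
    refine ⟨x, c * k, mul_pos hc hk0, fun n => ?_⟩
    have := hx (k * n)
    rw [← pow_mul]
    push_cast at this
    calc c * k * n = c * (k * n) := by ring
      _ ≤ _ := this
  · obtain ⟨M, hM⟩ := stab_large hX hw x K hK
    refine ⟨M + 1, Nat.succ_pos M, ?_⟩
    rw [← pow_mul]
    refine hM _ ?_
    calc M ≤ 1 * (M + 1) := by omega
      _ ≤ k * (M + 1) := Nat.mul_le_mul_right _ hk

theorem free_normalClosure_one (G : Type*) [Group G] :
    IsFreeGroup (Subgroup.normalClosure {(1 : G)}) := by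
  have h : Subgroup.normalClosure {(1 : G)} = ⊥ :=
    Subgroup.normalClosure_eq_bot_iff.2 (Set.Subset.refl _)
  have hs : Subsingleton (Subgroup.normalClosure {(1 : G)}) := by
    rw [h]; infer_instance
  have e : FreeGroup Empty ≃* Subgroup.normalClosure {(1 : G)} :=
    { toFun := fun _ => 1
      invFun := fun _ => 1
      left_inv := fun _ => Subsingleton.elim _ _
      right_inv := fun _ => Subsingleton.elim _ _
      map_mul' := fun _ _ => Subsingleton.elim _ _ }
  exact IsFreeGroup.ofMulEquiv e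

/-- Geodesic spaces. -/
def Geod (X : Type*) [PseudoMetricSpace X] : Prop :=
  ∀ x y : X, ∃ γ : ℝ → X, γ 0 = x ∧ γ (dist x y) = y ∧
    ∀ s ∈ Set.Icc 0 (dist x y), ∀ t ∈ Set.Icc 0 (dist x y), dist (γ s) (γ t) = |s - t|

theorem Geod.conn {X : Type*} [PseudoMetricSpace X] (h : Geod X) (p q : X) :
    Relation.ReflTransGen (fun a b => dist a b ≤ 1) p q := by
  obtain ⟨γ, h0, h1, h2⟩ := h p q
  set L := dist p q with hL
  have hL0 : 0 ≤ L := dist_nonneg
  obtain ⟨N, hN⟩ := exists_nat_gt L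
  have hN0 : (0:ℝ) < N := lt_of_le_of_lt hL0 hN
  have key : ∀ m : ℕ, m ≤ N →
      Relation.ReflTransGen (fun a b => dist a b ≤ 1) p (γ (L * (m / N))) := by
    intro m
    induction m with
    | zero => intro _; simp only [Nat.cast_zero, zero_div, mul_zero, h0]; exact .refl
    | succ m ih =>
      intro hm
      refine (ih (by omega)).tail ?_
      have hm' : ((m + 1 : ℕ) : ℝ) ≤ N := by exact_mod_cast hm
      have hm2 : ((m : ℕ) : ℝ) ≤ N := by push_cast at hm'; linarith
      have mem : ∀ j : ℕ, ((j : ℕ) : ℝ) ≤ N → L * (j / N) ∈ Set.Icc 0 L := by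
        intro j hj
        refine ⟨by positivity, ?_⟩
        have : (j : ℝ) / N ≤ 1 := (div_le_one hN0).2 hj
        nlinarith
      rw [h2 _ (mem m hm2) _ (mem (m + 1) hm')]
      have e : L * (m / N) - L * ((m + 1 : ℕ) / N) = - (L / N) := by
        push_cast; ring
      rw [e, abs_neg, abs_of_nonneg (by positivity), div_le_one hN0]
      exact hN.le
  have := key N le_rfl
  rw [div_self hN0.ne', mul_one, h1] at this
  exact this

open Classical in
theorem h40_union {X : Type*} [PseudoMetricSpace X] {H : Type*}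
    [Group H] [MulAction H X] {o : X} {e : ℝ} {p : PMF H} {κ : ENNReal}
    (hsh : ∀ ζ : X, ∑' x : H, p x * (if e < gp (x • o) ζ o then 1 else 0) ≤ κ)
    {ι : Type*} (s : Finset ι) (ζ : ι → X) :
    ∑' x : H, p x * (if ∃ i ∈ s, e < gp (x • o) (ζ i) o then 1 else 0) ≤ (s.card : ℕ) * κ := by
  induction s using Finset.induction_on with
  | empty => simp
  | insert a s ha ih =>
    rw [Finset.card_insert_of_notMem ha]
    have h1 : ∀ x : H, p x * (if ∃ i ∈ insert a s, e < gp (x • o) (ζ i) o then 1 else 0) ≤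
        p x * (if ∃ i ∈ s, e < gp (x • o) (ζ i) o then 1 else 0) +
        p x * (if e < gp (x • o) (ζ a) o then 1 else 0) := by
      intro x
      rw [← mul_add]
      refine mul_le_mul_right ?_ _
      by_cases hx : e < gp (x • o) (ζ a) o
      · rw [if_pos ⟨a, Finset.mem_insert_self a s, hx⟩, if_pos hx]
        exact le_add_self
      · by_cases hy : ∃ i ∈ s, e < gp (x • o) (ζ i) o
        · rw [if_pos hy]
          split_ifs <;> simp
        · rw [if_neg hx, if_neg hy, if_neg]
          · simp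
          · rintro ⟨i, hi, hi'⟩
            rcases Finset.mem_insert.1 hi with rfl | hi
            · exact hx hi'
            · exact hy ⟨i, hi, hi'⟩
    refine (ENNReal.tsum_le_tsum h1).trans ?_
    rw [ENNReal.tsum_add]
    push_cast
    rw [add_mul, one_mul]
    exact add_le_add ih (hsh _)

open Classical in
/-- Union bound over the matching elements (H = the group of the walk, G = the big group). -/
theorem match_prob {X : Type*} [PseudoMetricSpace X] {G H : Type*} [Group G] [MulAction G X]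
    [Group H] [MulAction H X] {o z u : X} {e : ℝ} {p : PMF H} {κ : ENNReal}
    (hsh : ∀ ζ : X, ∑' x : H, p x * (if e < gp (x • o) ζ o then 1 else 0) ≤ κ)
    {A : Set G} (hA : A.Finite) {M n : ℕ} (hM : A.ncard ≤ M) :
    ∑' x : H, p x * (if ∃ h ∈ A, e < gp (x • o) (h⁻¹ • o) o ∨ e < gp (x • o) (h⁻¹ • z) o ∨
      ∃ m : ℕ, m ≤ n ∧ e < gp (x • o) ((h ^ m)⁻¹ • u) o then 1 else 0) ≤ (M * (n + 3) : ℕ) * κ := by
  set s : Finset (G × ℕ) := hA.toFinset ×ˢ Finset.range (n + 3) with hs
  set ζ : G × ℕ → X := fun y => if y.2 = 0 then y.1⁻¹ • o else if y.2 = 1 then y.1⁻¹ • z else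
    (y.1 ^ (y.2 - 2))⁻¹ • u with hζ
  have h1 := h40_union hsh s ζ
  have hc : s.card ≤ M * (n + 3) := by
    rw [hs, Finset.card_product, Finset.card_range, ← Set.ncard_eq_toFinset_card A hA]
    exact Nat.mul_le_mul_right _ hM
  have h2 : ((s.card : ℕ) : ENNReal) * κ ≤ (M * (n + 3) : ℕ) * κ :=
    mul_le_mul_left (by exact_mod_cast hc) _
  refine le_trans (ENNReal.tsum_le_tsum fun x => ?_) (h1.trans h2)
  refine mul_le_mul_right ?_ _
  by_cases hx : ∃ h ∈ A, e < gp (x • o) (h⁻¹ • o) o ∨ e < gp (x • o) (h⁻¹ • z) o ∨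
      ∃ m : ℕ, m ≤ n ∧ e < gp (x • o) ((h ^ m)⁻¹ • u) o
  · rw [if_pos hx, if_pos]
    obtain ⟨h, hh, h3⟩ := hx
    have hmem : ∀ j < n + 3, (h, j) ∈ s := fun j hj => by
      rw [hs, Finset.mem_product, Finset.mem_range]
      exact ⟨hA.mem_toFinset.2 hh, hj⟩
    rcases h3 with h3 | h3 | ⟨m, hm, h3⟩
    · exact ⟨(h, 0), hmem 0 (by omega), by simpa [hζ] using h3⟩
    · exact ⟨(h, 1), hmem 1 (by omega), by simpa [hζ] using h3⟩
    · refine ⟨(h, m + 2), hmem (m + 2) (by omega), ?_⟩
      have : ζ (h, m + 2) = (h ^ m)⁻¹ • u := by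
        simp only [hζ]
        rw [if_neg (by omega), if_neg (by omega)]
        congr 2
      rw [this]; exact h3
  · rw [if_neg hx]; exact bot_le

end Pool.Agent.H88.WPD
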