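import Pool.Agent.H88.WPD.Loxo

/-!
Small overlap of the translates of an axis: the normal closure is free.
-/

namespace Pool.Agent.H88.WPD

open Filter

section four

variable {X : Type*} [PseudoMetricSpace X] {δ : ℝ}

/-- Position with respect to two far points. -/
noncomputable def fS (a b u : X) : ℝ := dist u a - dist u b

theorem fS_smul {G : Type*} [Group G] [MulAction G X] [IsIsometricSMul G X] (g : G) (a b u : X) :
    fS (g • a) (g • b) (g • u) = fS a b u := by
  unfold fS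
  rw [dist_smul, dist_smul]

theorem fS_swap (a b u : X) : fS b a u = - fS a b u := by
  unfold fS
  ring

/-- If p projects to the axis s beyond both ends t, then p and the end b see t in the same
way. -/
theorem five_aux (hX : Hyp X δ) (p a b t : X) (h : 2 * δ < fS a b p - fS a b t) :
    |dist p t + dist a b - dist p a - dist t b| ≤ 2 * δ := by
  unfold fS at h
  have h1 := hX.four p a t b
  have h2 := hX.four p t a b
  rw [abs_le]
  rw [dist_comm a t, dist_comm a b] at *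
  rcases max_choice (dist p t + dist b a) (dist p b + dist t a) with h3 | h3 <;>
    rcases max_choice (dist p a + dist t b) (dist p b + dist t a) with h4 | h4 <;>
    rw [h3] at h1 <;> (try rw [h4] at h2) <;> constructor <;> linarith

/-- A point far from the projection of the axis t on the axis s projects to t inside the
projection of s. -/
theorem five (hX : Hyp X δ) (p a b t t' : X) {θ : ℝ} (hθ : 0 ≤ θ)
    (hov : |fS a b t - fS a b t'| ≤ 2 * θ) :
    |fS a b p - fS a b t'| ≤ 2 * θ + 2 * δ ∨ |fS t t' p - fS t t' b| ≤ 2 * θ + 4 * δ := by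
  by_cases h : |fS a b p - fS a b t'| ≤ 2 * θ + 2 * δ
  · exact Or.inl h
  right
  rw [abs_le] at hov
  rw [not_le, lt_abs] at h
  rcases h with h | h
  · have h1 := five_aux hX p a b t' (by linarith)
    have h2 := five_aux hX p a b t (by linarith)
    unfold fS at *
    rw [abs_le] at *
    have e1 := dist_comm t b
    have e2 := dist_comm t' b
    constructor <;> linarith
  · have h1 := five_aux hX p b a t' (by rw [fS_swap a b, fS_swap a b]; linarith)
    have h2 := five_aux hX p b a t (by rw [fS_swap a b, fS_swap a b]; linarith)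
    unfold fS at *
    rw [abs_le] at *
    have e1 := dist_comm t b
    have e2 := dist_comm t' b
    constructor <;> linarith

theorem btw_aux (hX : Hyp X δ) (x a b t t' : X) {θ κ : ℝ} (hθ : 0 ≤ θ) (hκ : 0 ≤ κ)
    (hx : gp t t' x ≤ κ)
    (hov : |fS a b t - fS a b t'| ≤ 2 * θ) : fS a b x - fS a b t' ≤ 2 * θ + 2 * κ + 6 * δ := by
  have hδ : 0 ≤ δ := hX.nonneg x
  by_contra h
  rw [not_le] at h
  rw [abs_le] at hov
  have h1 := five_aux hX x a b t' (by linarith)
  have h2 := five_aux hX x a b t (by linarith)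
  have h3 := hX.four t' t a b
  have h4 := dist_triangle a x b
  unfold fS gp at *
  rw [abs_le] at *
  have e1 := dist_comm t t'
  have e2 := dist_comm t x
  have e3 := dist_comm t' x
  have e4 := dist_comm a x
  rcases max_choice (dist t' a + dist t b) (dist t' b + dist t a) with h5 | h5 <;>
    rw [h5] at h3 <;> linarith

theorem btw (hX : Hyp X δ) (x a b t t' : X) {θ κ : ℝ} (hθ : 0 ≤ θ) (hκ : 0 ≤ κ)
    (hx : gp t t' x ≤ κ)
    (hov : |fS a b t - fS a b t'| ≤ 2 * θ) : |fS a b x - fS a b t'| ≤ 2 * θ + 2 * κ + 6 * δ := by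
  rw [abs_le]
  constructor
  · have h := btw_aux hX x b a t t' hθ hκ hx (by
      rw [fS_swap a b, fS_swap a b]
      rw [← abs_neg]
      convert hov using 2
      ring)
    rw [fS_swap a b, fS_swap a b] at h
    linarith
  · exact btw_aux hX x a b t t' hθ hκ hx hov

/-- The alternative of Behrstock. -/
theorem beh_pt (hX : Hyp X δ) (p a b t t' x y : X) {θ κ : ℝ} (hθ : 0 ≤ θ) (hκ : 0 ≤ κ)
    (hx : gp t t' x ≤ κ) (hy : gp a b y ≤ κ)
    (hov : |fS a b t - fS a b t'| ≤ 2 * θ) :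
    |fS a b p - fS a b x| / 2 ≤ 2 * θ + κ + 5 * δ ∨
      |fS t t' p - fS t t' y| / 2 ≤ 2 * θ + κ + 5 * δ := by
  have hov2 : |fS t t' a - fS t t' b| ≤ 2 * θ := by
    unfold fS at *
    rw [abs_le] at *
    have e1 := dist_comm t a
    have e2 := dist_comm t b
    have e3 := dist_comm t' a
    have e4 := dist_comm t' b
    constructor <;> linarith
  have hδ : 0 ≤ δ := hX.nonneg x
  have h1 := btw hX x a b t t' hθ hκ hx hov
  have h2 := btw hX y t t' a b hθ hκ hy hov2
  rcases five hX p a b t t' hθ hov with h3 | h3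
  · left
    have h4 : |fS a b p - fS a b x| ≤ |fS a b p - fS a b t'| + |fS a b x - fS a b t'| := by
      rw [abs_sub_comm (fS a b x)]
      exact abs_sub_le _ _ _
    linarith
  · right
    have h4 : |fS t t' p - fS t t' y| ≤ |fS t t' p - fS t t' b| + |fS t t' y - fS t t' b| := by
      rw [abs_sub_comm (fS t t' y)]
      exact abs_sub_le _ _ _
    linarith

/-- Two far points towards the same end. -/
theorem far_aux (hX : Hyp X δ) (p q a a' : X)
    (h : dist p q + dist a a' < dist p a' + dist q a) :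
    dist p a + dist q a' ≤ dist p a' + dist q a + 2 * δ := by
  have h1 := hX.four p a q a'
  have e1 := dist_comm a q
  have e2 := dist_comm a a'
  rcases max_choice (dist p q + dist a a') (dist p a' + dist a q) with h3 | h3 <;>
    rw [h3] at h1 <;> linarith [hX.nonneg p]

/-- Two far points towards the same end see p and q in the same way. -/
theorem end_close (hX : Hyp X δ) (o p q a a' : X)
    (h : dist a a' + (dist p q + dist o p + dist o q) < dist o a + dist o a') :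
    |(dist p a - dist q a) - (dist p a' - dist q a')| ≤ 2 * δ := by
  have t1 := dist_triangle o p a
  have t2 := dist_triangle o p a'
  have t3 := dist_triangle o q a
  have t4 := dist_triangle o q a'
  have e1 := dist_comm a a'
  have h1 := far_aux hX p q a a' (by linarith)
  have h2 := far_aux hX p q a' a (by linarith)
  rw [abs_le]
  constructor <;> linarith

end four

section dd

variable {X : Type*} [PseudoMetricSpace X] {δ : ℝ}
variable {G : Type*} [Group G] [MulAction G X]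

/-- Difference of the positions of p and q along the axis of t, seen at stage n. -/
noncomputable def BB (t : G) (o : X) (n : ℕ) (p q : X) : ℝ :=
  |fS ((t ^ n)⁻¹ • o) (t ^ n • o) p - fS ((t ^ n)⁻¹ • o) (t ^ n • o) q| / 2

/-- Distance of the projections of p and q to the axis of t. -/
noncomputable def DD (t : G) (p q : X) : ℝ :=
  sInf {r : ℝ | 0 ≤ r ∧ ∀ o : X, ∀ᶠ n : ℕ in atTop, BB t o n p q ≤ r}

theorem BB_le (t : G) (o : X) (n : ℕ) (p q : X) : BB t o n p q ≤ dist p q := by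
  unfold BB fS
  have h1 := dist_triangle p q ((t ^ n)⁻¹ • o)
  have h2 := dist_triangle q p ((t ^ n)⁻¹ • o)
  have h3 := dist_triangle p q (t ^ n • o)
  have h4 := dist_triangle q p (t ^ n • o)
  have e1 := dist_comm p q
  rw [div_le_iff₀ (by norm_num), abs_le]
  constructor <;> linarith

theorem DD_le {t : G} {p q : X} {r : ℝ} (h0 : 0 ≤ r)
    (h : ∀ o : X, ∀ᶠ n : ℕ in atTop, BB t o n p q ≤ r) : DD t p q ≤ r :=
  csInf_le ⟨0, fun _ hs => hs.1⟩ ⟨h0, h⟩

theorem DD_mem (t : G) (p q : X) :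
    {r : ℝ | 0 ≤ r ∧ ∀ o : X, ∀ᶠ n : ℕ in atTop, BB t o n p q ≤ r}.Nonempty :=
  ⟨dist p q, dist_nonneg, fun o => Eventually.of_forall fun n => BB_le t o n p q⟩

theorem le_DD {t : G} {p q : X} {r : ℝ}
    (h : ∀ s : ℝ, 0 ≤ s → (∀ o : X, ∀ᶠ n : ℕ in atTop, BB t o n p q ≤ s) → r ≤ s) :
    r ≤ DD t p q :=
  le_csInf (DD_mem t p q) fun s hs => h s hs.1 hs.2

theorem DD_dist (t : G) (p q : X) : DD t p q ≤ dist p q :=
  DD_le dist_nonneg fun o => Eventually.of_forall fun n => BB_le t o n p q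

theorem DD_nonneg (t : G) (p q : X) : 0 ≤ DD t p q :=
  le_DD fun _ h _ => h

theorem DD_self (t : G) (p : X) : DD t p p = 0 := by
  apply le_antisymm _ (DD_nonneg t p p)
  have := DD_dist t p p
  rwa [dist_self] at this

theorem BB_symm (t : G) (o : X) (n : ℕ) (p q : X) : BB t o n p q = BB t o n q p := by
  unfold BB
  rw [abs_sub_comm]

theorem DD_symm (t : G) (p q : X) : DD t p q = DD t q p := by
  unfold DD
  simp only [BB_symm t _ _ p q]

theorem BB_tri (t : G) (o : X) (n : ℕ) (p q r : X) :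
    BB t o n p r ≤ BB t o n p q + BB t o n q r := by
  unfold BB
  have := abs_sub_le (fS ((t ^ n)⁻¹ • o) (t ^ n • o) p) (fS ((t ^ n)⁻¹ • o) (t ^ n • o) q)
    (fS ((t ^ n)⁻¹ • o) (t ^ n • o) r)
  linarith

theorem DD_tri (t : G) (p q r : X) : DD t p r ≤ DD t p q + DD t q r := by
  have h1 : DD t p r - DD t q r ≤ DD t p q := by
    apply le_DD
    intro s1 hs1 h1
    have h2 : DD t p r - s1 ≤ DD t q r := by
      apply le_DD
      intro s2 hs2 h2
      have h3 : DD t p r ≤ s1 + s2 := by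
        apply DD_le (by linarith)
        intro o
        filter_upwards [h1 o, h2 o] with n e1 e2
        have := BB_tri t o n p q r
        linarith
      linarith
    linarith
  linarith

theorem BB_conj [IsIsometricSMul G X] (g t : G) (o : X) (n : ℕ) (p q : X) :
    BB (g * t * g⁻¹) (g • o) n (g • p) (g • q) = BB t o n p q := by
  have e0 : (g * t * g⁻¹) ^ n = g * t ^ n * g⁻¹ := conj_pow
  have e1 : (g * t * g⁻¹) ^ n • g • o = g • t ^ n • o := by
    rw [e0, ← mul_smul, ← mul_smul, inv_mul_cancel_right]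
  have e2 : ((g * t * g⁻¹) ^ n)⁻¹ • g • o = g • (t ^ n)⁻¹ • o := by
    rw [e0, mul_inv_rev, mul_inv_rev, inv_inv, ← mul_smul, ← mul_smul]
    congr 1
    group
  unfold BB
  rw [e1, e2, fS_smul, fS_smul]

theorem DD_conj [IsIsometricSMul G X] (g t : G) (p q : X) :
    DD (g * t * g⁻¹) (g • p) (g • q) = DD t p q := by
  apply le_antisymm
  · apply le_DD
    intro s hs h
    apply DD_le hs
    intro o
    have h1 := h (g⁻¹ • o)
    filter_upwards [h1] with n e1
    have e2 := BB_conj g t (g⁻¹ • o) n p q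
    rw [smul_inv_smul] at e2
    rw [e2]
    exact e1
  · apply le_DD
    intro s hs h
    apply DD_le hs
    intro o
    have h1 := h (g • o)
    filter_upwards [h1] with n e1
    rw [BB_conj g t o n p q] at e1
    exact e1

theorem BB_close (hX : Hyp X δ) (o p q : X) {t : G} {o' o'' : X} {n m : ℕ}
    (h1 : dist ((t ^ n)⁻¹ • o') ((t ^ m)⁻¹ • o'') + (dist p q + dist o p + dist o q) <
      dist o ((t ^ n)⁻¹ • o') + dist o ((t ^ m)⁻¹ • o''))
    (h2 : dist (t ^ n • o') (t ^ m • o'') + (dist p q + dist o p + dist o q) <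
      dist o (t ^ n • o') + dist o (t ^ m • o'')) :
    BB t o' n p q ≤ BB t o'' m p q + 2 * δ := by
  have h3 := end_close hX o p q _ _ h1
  have h4 := end_close hX o p q _ _ h2
  unfold BB fS
  have h5 : |(dist p ((t ^ n)⁻¹ • o') - dist p (t ^ n • o') -
      (dist q ((t ^ n)⁻¹ • o') - dist q (t ^ n • o')))| ≤
      |(dist p ((t ^ m)⁻¹ • o'') - dist p (t ^ m • o'') -
      (dist q ((t ^ m)⁻¹ • o'') - dist q (t ^ m • o'')))| + 4 * δ := by
    rw [abs_le] at h3 h4
    have h6 := abs_le.1 (le_refl |(dist p ((t ^ m)⁻¹ • o'') - dist p (t ^ m • o'') -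
      (dist q ((t ^ m)⁻¹ • o'') - dist q (t ^ m • o'')))|)
    rw [abs_le]
    constructor <;> linarith [h6.1, h6.2, h3.1, h3.2, h4.1, h4.2]
  linarith

end dd

section axis

variable {X : Type*} [PseudoMetricSpace X] {δ : ℝ}
variable {G : Type*} [Group G] [MulAction G X] [IsIsometricSMul G X]

theorem len_add {o : X} {z : G} {κ : ℝ}
    (hq : ∀ m n : ℕ, gp ((z ^ m)⁻¹ • o) (z ^ n • o) o ≤ κ) (m n : ℕ) :
    dist o (z ^ m • o) + dist o (z ^ n • o) - 2 * κ ≤ dist o (z ^ (m + n) • o) := by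
  have h1 := jn_len (o := o) (z ^ m) (z ^ n)
  rw [← pow_add] at h1
  have h2 := hq m n
  linarith

theorem len_lin {o : X} {z : G} {κ L : ℝ}
    (hq : ∀ m n : ℕ, gp ((z ^ m)⁻¹ • o) (z ^ n • o) o ≤ κ)
    (hL : ∀ n : ℕ, 0 < n → L ≤ dist o (z ^ n • o)) (n : ℕ) :
    (L - 2 * κ) * n ≤ dist o (z ^ n • o) := by
  induction n with
  | zero => simp
  | succ n ih =>
    have h1 := len_add hq n 1
    have h2 := hL 1 one_pos
    push_cast
    linarith

theorem len_tend {o : X} {z : G} {κ L : ℝ}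
    (hq : ∀ m n : ℕ, gp ((z ^ m)⁻¹ • o) (z ^ n • o) o ≤ κ)
    (hL : ∀ n : ℕ, 0 < n → L ≤ dist o (z ^ n • o)) (hbig : 2 * κ < L) (R : ℝ) :
    ∃ N : ℕ, ∀ n, N ≤ n → R ≤ dist o (z ^ n • o) := by
  obtain ⟨N, hN⟩ := exists_nat_gt (R / (L - 2 * κ))
  refine ⟨N, fun n hn => ?_⟩
  have h1 := len_lin hq hL n
  have h0 : 0 < L - 2 * κ := by linarith
  rw [div_lt_iff₀ h0] at hN
  have h2 : (N : ℝ) ≤ n := by exact_mod_cast hn
  have h3 : (N : ℝ) * (L - 2 * κ) ≤ n * (L - 2 * κ) := mul_le_mul_of_nonneg_right h2 h0.le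
  linarith

theorem dist_pow_pow {o : X} {z : G} {κ : ℝ}
    (hq : ∀ m n : ℕ, gp ((z ^ m)⁻¹ • o) (z ^ n • o) o ≤ κ) {n m : ℕ} (h : n ≤ m) :
    dist (z ^ n • o) (z ^ m • o) ≤ dist o (z ^ m • o) - dist o (z ^ n • o) + 2 * κ := by
  obtain ⟨k, rfl⟩ := Nat.exists_eq_add_of_le h
  rw [dist_pow]
  have := len_add hq n k
  linarith

theorem dist_inv_pow_pow {o : X} {z : G} {κ : ℝ}
    (hq : ∀ m n : ℕ, gp ((z ^ m)⁻¹ • o) (z ^ n • o) o ≤ κ) {n m : ℕ} (h : n ≤ m) :
    dist ((z ^ n)⁻¹ • o) ((z ^ m)⁻¹ • o) ≤ dist o (z ^ m • o) - dist o (z ^ n • o) + 2 * κ := by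
  obtain ⟨k, rfl⟩ := Nat.exists_eq_add_of_le h
  have e1 : (z ^ (n + k))⁻¹ = (z ^ n)⁻¹ * (z ^ k)⁻¹ := by
    rw [add_comm, pow_add, mul_inv_rev]
  rw [e1, mul_smul, dist_smul, dist_inv_smul]
  have := len_add hq n k
  linarith

theorem BB_cauchy (hX : Hyp X δ) {o : X} {z : G} {κ L : ℝ} (hκ : 0 ≤ κ)
    (hq : ∀ m n : ℕ, gp ((z ^ m)⁻¹ • o) (z ^ n • o) o ≤ κ)
    (hL : ∀ n : ℕ, 0 < n → L ≤ dist o (z ^ n • o)) (hbig : 2 * κ < L) (p q : X) :
    ∃ N : ℕ, ∀ n, N ≤ n → ∀ m, N ≤ m → BB z o n p q ≤ BB z o m p q + 2 * δ := by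
  obtain ⟨N, hN⟩ := len_tend hq hL hbig (2 * κ + (dist p q + dist o p + dist o q) + 1)
  refine ⟨N, fun n hn m hm => ?_⟩
  have h1 := hN n hn
  have h2 := hN m hm
  have p1 := dist_nonneg (x := p) (y := q)
  have p2 := dist_nonneg (x := o) (y := p)
  have p3 := dist_nonneg (x := o) (y := q)
  apply BB_close hX o p q
  · rw [dist_inv_smul, dist_inv_smul]
    rcases le_total n m with h | h
    · have := dist_inv_pow_pow hq h
      linarith
    · have := dist_inv_pow_pow hq h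
      rw [dist_comm]
      linarith
  · rcases le_total n m with h | h
    · have := dist_pow_pow hq h
      linarith
    · have := dist_pow_pow hq h
      rw [dist_comm]
      linarith

theorem BB_base (hX : Hyp X δ) {o : X} {z : G} {κ L : ℝ} (hκ : 0 ≤ κ)
    (hq : ∀ m n : ℕ, gp ((z ^ m)⁻¹ • o) (z ^ n • o) o ≤ κ)
    (hL : ∀ n : ℕ, 0 < n → L ≤ dist o (z ^ n • o)) (hbig : 2 * κ < L) (p q o' : X) :
    ∃ N : ℕ, ∀ n, N ≤ n → BB z o' n p q ≤ BB z o n p q + 2 * δ := by
  obtain ⟨N, hN⟩ := len_tend hq hL hbig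
    (2 * dist o' o + (dist p q + dist o p + dist o q) + 1)
  refine ⟨N, fun n hn => ?_⟩
  have h1 := hN n hn
  have p1 := dist_nonneg (x := p) (y := q)
  have p2 := dist_nonneg (x := o) (y := p)
  have p3 := dist_nonneg (x := o) (y := q)
  have p4 := dist_nonneg (x := o') (y := o)
  apply BB_close hX o p q
  · rw [dist_smul]
    have h2 := dist_triangle o ((z ^ n)⁻¹ • o') ((z ^ n)⁻¹ • o)
    rw [dist_smul] at h2
    rw [dist_inv_smul] at *
    linarith
  · rw [dist_smul]
    have h2 := dist_triangle o (z ^ n • o') (z ^ n • o)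
    rw [dist_smul] at h2
    linarith

theorem DD_le_BB (hX : Hyp X δ) {o : X} {z : G} {κ L : ℝ} (hκ : 0 ≤ κ)
    (hq : ∀ m n : ℕ, gp ((z ^ m)⁻¹ • o) (z ^ n • o) o ≤ κ)
    (hL : ∀ n : ℕ, 0 < n → L ≤ dist o (z ^ n • o)) (hbig : 2 * κ < L) (p q : X) :
    ∃ N : ℕ, ∀ n, N ≤ n → DD z p q ≤ BB z o n p q + 4 * δ := by
  obtain ⟨N, hN⟩ := BB_cauchy hX hκ hq hL hbig p q
  refine ⟨N, fun n hn => ?_⟩
  have hδ : 0 ≤ δ := hX.nonneg o
  apply DD_le
  · unfold BB
    positivity
  intro o'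
  obtain ⟨N', hN'⟩ := BB_base hX hκ hq hL hbig p q o'
  filter_upwards [eventually_ge_atTop (max N N')] with m hm
  have h1 := hN' m (le_of_max_le_right hm)
  have h2 := hN m (le_of_max_le_left hm) n hn
  linarith

/-- One end: moving further by z^m costs at least the length of z^m. -/
theorem end_move (hX : Hyp X δ) {o p a b : X} {κ : ℝ} (h1 : gp o b a ≤ κ)
    (h2 : κ + δ + dist o p < dist o a) : dist a b - 2 * κ - 2 * δ ≤ dist p b - dist p a := by
  have h3 : κ + δ < gp p o a := by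
    have := dist_triangle o p a
    unfold gp
    rw [dist_comm p o]
    linarith
  have h4 := hX.le (x := b) (z := o) (y := p) (w := a) (by rw [gp_comm]; exact h1) h3
  have h5 := dist_eq_gp b p a
  have e1 := dist_comm b p
  have e2 := dist_comm b a
  linarith

theorem DD_rot (hX : Hyp X δ) {o : X} {z : G} {κ L : ℝ} (hκ : 0 ≤ κ)
    (hq : ∀ m n : ℕ, gp ((z ^ m)⁻¹ • o) (z ^ n • o) o ≤ κ)
    (hL : ∀ n : ℕ, 0 < n → L ≤ dist o (z ^ n • o)) (hbig : 2 * κ < L) {m : ℕ} (hm : 0 < m)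
    (p : X) : L - 2 * κ - 2 * δ ≤ DD z (z ^ m • p) p := by
  have hδ : 0 ≤ δ := hX.nonneg o
  apply le_DD
  intro s hs h
  obtain ⟨N, hN⟩ := len_tend hq hL hbig (κ + δ + dist o p + 1)
  have h1 : ∀ᶠ n : ℕ in atTop, m + N ≤ n := eventually_ge_atTop _
  obtain ⟨n, e1, e2⟩ := ((h o).and h1).exists
  obtain ⟨k, rfl⟩ := Nat.exists_eq_add_of_le (le_trans (Nat.le_add_right m N) e2)
  have hk : N ≤ k := by omega
  have hℓ := hL m hm
  -- the positive end
  have a1 := end_move hX (o := o) (p := p) (a := z ^ k • o) (b := z ^ (m + k) • o) (κ := κ)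
    (by
      have := hq k m
      rw [← gp_smul (X := X) (z ^ k), smul_inv_smul, ← mul_smul, ← pow_add, add_comm k m] at this
      exact this) (by linarith [hN k hk])
  have a2 := end_move hX (o := o) (p := p) (a := (z ^ (m + k))⁻¹ • o)
    (b := (z ^ (m + k + m))⁻¹ • o) (κ := κ)
    (by
      have := hq m (m + k)
      rw [gp_comm, ← gp_smul (X := X) (z ^ (m + k))⁻¹, inv_smul_smul, ← mul_smul,
        ← mul_inv_rev, ← pow_add, add_comm m (m + k)] at this
      exact this) (by rw [dist_inv_smul]; linarith [hN (m + k) (by omega)])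
  have b1 : dist (z ^ k • o) (z ^ (m + k) • o) = dist o (z ^ m • o) := by
    rw [add_comm m k, dist_pow]
  have b2 : dist ((z ^ (m + k))⁻¹ • o) ((z ^ (m + k + m))⁻¹ • o) = dist o (z ^ m • o) := by
    have e3 : (z ^ (m + k + m))⁻¹ = (z ^ (m + k))⁻¹ * (z ^ m)⁻¹ := by
      rw [add_comm (m + k) m, pow_add z m (m + k), mul_inv_rev]
    rw [e3, mul_smul, dist_smul, dist_inv_smul]
  have c1 : dist (z ^ m • p) ((z ^ (m + k))⁻¹ • o) = dist p ((z ^ (m + k + m))⁻¹ • o) := by
    rw [← dist_smul (z ^ m) p, ← mul_smul]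
    congr 2
    rw [pow_add z (m + k) m, mul_inv_rev, ← mul_assoc, mul_inv_cancel, one_mul]
  have c2 : dist (z ^ m • p) (z ^ (m + k) • o) = dist p (z ^ k • o) := by
    rw [pow_add, mul_smul, dist_smul]
  have d1 : L - 2 * κ - 2 * δ ≤ BB z o (m + k) (z ^ m • p) p := by
    unfold BB fS
    rw [c1, c2, le_div_iff₀ (by norm_num)]
    refine le_trans ?_ (le_abs_self _)
    linarith
  linarith

theorem beh_z (hX : Hyp X δ) {o : X} {z : G} {κ θ L : ℝ} (hκ : 0 ≤ κ) (hθ : 0 ≤ θ)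
    (hq : ∀ m n : ℕ, gp ((z ^ m)⁻¹ • o) (z ^ n • o) o ≤ κ)
    (hL : ∀ n : ℕ, 0 < n → L ≤ dist o (z ^ n • o)) (hbig : 2 * κ < L) (g : G)
    (hov : ∀ n : ℕ,
      |dist (z ^ n • o) (g • (z ^ n)⁻¹ • o) + dist ((z ^ n)⁻¹ • o) (g • z ^ n • o)
        - dist (z ^ n • o) (g • z ^ n • o) - dist ((z ^ n)⁻¹ • o) (g • (z ^ n)⁻¹ • o)| ≤ 2 * θ)
    (p : X) :
    DD z p (g • o) ≤ 2 * θ + κ + 9 * δ ∨ DD (g * z * g⁻¹) p o ≤ 2 * θ + κ + 9 * δ := by
  obtain ⟨N1, hN1⟩ := DD_le_BB hX hκ hq hL hbig p (g • o)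
  obtain ⟨N2, hN2⟩ := DD_le_BB hX hκ hq hL hbig (g⁻¹ • p) (g⁻¹ • o)
  have h1 := hN1 (max N1 N2) (le_max_left _ _)
  have h2 := hN2 (max N1 N2) (le_max_right _ _)
  generalize max N1 N2 = n at h1 h2
  have h3 := hov n
  have h4 := beh_pt hX p ((z ^ n)⁻¹ • o) (z ^ n • o) (g • (z ^ n)⁻¹ • o) (g • z ^ n • o)
    (g • o) o hθ hκ (by rw [gp_smul]; exact hq n n) (hq n n) (by
      unfold fS
      rw [abs_le] at *
      have e1 := dist_comm (z ^ n • o) (g • (z ^ n)⁻¹ • o)
      have e2 := dist_comm ((z ^ n)⁻¹ • o) (g • z ^ n • o)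
      have e3 := dist_comm (z ^ n • o) (g • z ^ n • o)
      have e4 := dist_comm ((z ^ n)⁻¹ • o) (g • (z ^ n)⁻¹ • o)
      constructor <;> linarith)
  rcases h4 with h4 | h4
  · left
    unfold BB at h1
    linarith
  · right
    have e1 := DD_conj g z (g⁻¹ • p) (g⁻¹ • o)
    rw [smul_inv_smul, smul_inv_smul] at e1
    rw [e1]
    have e2 := fS_smul g ((z ^ n)⁻¹ • o) (z ^ n • o) (g⁻¹ • p)
    have e3 := fS_smul g ((z ^ n)⁻¹ • o) (z ^ n • o) (g⁻¹ • o)
    rw [smul_inv_smul] at e2 e3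
    unfold BB at h2
    rw [e2, e3] at h4
    linarith

end axis

end Pool.Agent.H88.WPD
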